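import Mathlib
import Pool.Agent.H.MP_c360fa_mp.A

namespace Pool.Agent.Results.MP_c360fa_mp.FiniteH

open MvPolynomial Pool.Agent.H.MP_c360fa_mp

/-- the total derivative `d`, `u_i ↦ u_{i+1}` -/
noncomputable def d : Derivation ℝ (MvPolynomial ℕ ℝ) (MvPolynomial ℕ ℝ) :=
  mkDerivation ℝ fun i => X (i + 1)

/-- the product `f * g` of the problem -/
noncomputable def star (f g : MvPolynomial ℕ ℝ) : MvPolynomial ℕ ℝ :=
  ∑ i ∈ f.vars ∪ g.vars, (pderiv i f * d^[i] g + (-1) ^ i * d^[i] (f * pderiv i g))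

lemma star_eq (h : A) : star h (X 3 + X 1 ^ 4) = L h + M h := by
  have e : d = S 1 := rfl
  have z : ∀ i, (S 1)^[i] (0 : A) = 0 := fun i => Function.iterate_fixed (map_zero _) i
  have a : ∀ i, (S 1)^[i] (X 3 + X 1 ^ 4 : A) = (S 3 + T) (X i) := by
    intro i
    rw [Derivation.add_apply, T_X, S_X]
    induction i with
    | zero => rfl
    | succ i ih => simp [Function.iterate_succ_apply', ih, add_right_comm]
  rw [star, e, Finset.sum_subset (Finset.subset_union_left (s₂ := {1, 3})) fun i _ hi => by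
    rw [Finset.mem_union, not_or] at hi
    simp only [pderiv_eq_zero_of_notMem_vars hi.1, pderiv_eq_zero_of_notMem_vars hi.2, z, mul_zero,
      zero_mul, add_zero], Finset.sum_add_distrib]
  simp only [a]
  rw [← der_sum _ _ _ (Finset.subset_union_left.trans Finset.subset_union_left),
    ← Finset.sum_subset (Finset.subset_union_right) fun i _ hi => by
      simp only [Finset.mem_insert, Finset.mem_singleton, not_or] at hi
      simp [pderiv_X, Pi.single_apply, Ne.symm hi.1, Ne.symm hi.2, z]]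
  simp [L_app, M_app, pderiv_X]
  ring

theorem result : ∃ (n m : ℕ) (f g : MvPolynomial ℕ ℝ), 1 < m ∧ m < n ∧
    f ∈ supported ℝ (Set.Iic n) ∧ pderiv n f ≠ 0 ∧ g ∈ supported ℝ (Set.Iic m) ∧ pderiv m g ≠ 0 ∧
    star f g = 0 ∧
    ∃ B : Finset (MvPolynomial ℕ ℝ), ∀ h, star h g = 0 → h ∈ Submodule.span ℝ (B : Set _) := by
  have x : ∀ n i : ℕ, i ≤ n → (X i : A) ∈ supported ℝ (Set.Iic n) := fun n i h =>
    X_mem_supported.2 h
  refine ⟨4, 3, X 4 + 4 * X 1 ^ 3 * X 2, X 3 + X 1 ^ 4, by norm_num, by norm_num,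
    add_mem (x _ _ le_rfl) (mul_mem (mul_mem (ofNat_mem _ 4) (pow_mem (x _ _ (by norm_num)) _))
      (x _ _ (by norm_num))), by simp [pderiv_X, der_num],
    add_mem (x _ _ le_rfl) (pow_mem (x _ _ (by norm_num)) _), by simp [pderiv_X], ?_, ?_⟩
  · have t : ∀ p, T (S 1 p) = S 1 (T p) := fun p => (comm (F := 0) (fun i => by
      rw [S_X, T_X, T_X, Function.iterate_succ_apply', Derivation.zero_apply, add_zero]) p).trans
        (add_zero _)
    have u : ∀ p, S 3 (S 1 p) = S 1 (S 3 p) := fun p => (comm (F := 0) (fun i => by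
      simp [add_right_comm]) p).trans (add_zero _)
    have v : X 4 + 4 * X 1 ^ 3 * X 2 = S 1 (X 3 + X 1 ^ 4) := by simp [mul_assoc]
    have w : S 3 (X 3 + X 1 ^ 4) + T (X 3 + X 1 ^ 4) = S 1 (S 1 (S 1 (X 3 + X 1 ^ 4))) +
        S 1 (X 3 + X 1 ^ 4) * (4 * X 1 ^ 3) := by
      have a : T (X 3) = S 1 (S 1 (S 1 (X 1 ^ 4))) := T_X 3
      have b : T (X 1) = S 1 (X 1 ^ 4) := T_X 1
      simp only [map_add, a, S_X, T.leibniz_pow, (S 3).leibniz_pow, b, smul_eq_mul, nsmul_eq_mul]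
      norm_num
      ring
    rw [star_eq, L_app, M_app, v, t, u]
    have w' := congrArg (S 1) w
    rw [map_add, map_add (S 1) (S 1 _)] at w'
    linear_combination w'
  · obtain ⟨B, hB⟩ := fg
    refine ⟨B, fun h e => ?_⟩
    rw [hB]
    exact (star_eq h).symm.trans e

end Pool.Agent.Results.MP_c360fa_mp.FiniteH
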